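import Mathlib
import Pool.Agent.Helper937.Szd2

set_option autoImplicit false

open Set Topology

namespace Pool.Agent.Results.MP_f50f0f_gt.StronglyZeroDim

/-- `L_p(X)`: the functionals `f ↦ ∑ a(x) f(x)` on `C(X)`, as a subspace of `ℝ ^ C(X)`. -/
abbrev Lp (X : Type) [TopologicalSpace X] : Type :=
  ↥(Set.range (fun a : X →₀ ℝ => fun f : C(X, ℝ) => a.sum (fun x r => r * f x)))

/-- `C_p(Z)`: continuous real functions with the topology of pointwise convergence. -/
abbrev Cp (Z : Type) [TopologicalSpace Z] : Type := ↥{f : Z → ℝ | Continuous f}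

/-- perfectly normal: normal, and closed sets are `G_δ` -/
def PN (E : Type) [TopologicalSpace E] : Prop :=
  NormalSpace E ∧ ∀ s : Set E, IsClosed s → IsGδ s

/-- Let `X` be a Tychonoff space which is strongly zero-dimensional, or more generally such that
`C_p(X)` has a continuous surjection onto `C_p(X) × C_p(X)`. If every closed subspace of `C_p(X)` is
separable, then every closed subspace of every finite power of `C_p(X)` is separable, `L_p(X)` is
perfectly normal, and so is `C_p(C_p(X))`. -/
theorem result :
    ∀ (X : Type) [TopologicalSpace X] [T35Space X],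
      ((∀ f : X → ℝ, Continuous f → ∀ a b : ℝ, a < b →
          ∃ C : Set X, IsClopen C ∧ {x | f x ≤ a} ⊆ C ∧ C ⊆ {x | f x < b}) ∨
        ∃ Q : Cp X → Cp X × Cp X, Continuous Q ∧ Function.Surjective Q) →
      (∀ S : Set (Cp X), IsClosed S → TopologicalSpace.SeparableSpace ↥S) →
      (∀ (n : ℕ) (S : Set (Fin n → Cp X)), IsClosed S → TopologicalSpace.SeparableSpace ↥S) ∧
        PN (Lp X) ∧ PN (Cp (Cp X)) := by
  intro X _ _ hX hCS1
  have hsq : ∃ Q : Helper937.Szd.Cp X → Helper937.Szd.Cp X × Helper937.Szd.Cp X,
      Continuous Q ∧ Function.Surjective Q := by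
    rcases hX with h | h
    · exact Helper937.Szd.exists_square X h
    · exact h
  have hne : Nonempty (Helper937.Szd.Cp X) := ⟨⟨fun _ => 0, continuous_const⟩⟩
  have hCS : ∀ n, Helper937.Szd.CS (Fin n → Helper937.Szd.Cp X) := by
    intro n
    obtain ⟨R, hR, hRs⟩ := Helper937.Szd.exists_power hsq n
    exact Helper937.Szd.CS.image (Z := Helper937.Szd.Cp X) hCS1 R hR hRs
  refine ⟨fun n S hS => hCS n S hS, ?_, ?_⟩
  · -- the free locally convex space
    refine Helper937.Szd.perfect_of_zero ?_
    intro P hP
    let e : Lp X → Helper937.Szd.Cp X → ℝ := fun φ f => φ.1 ⟨f.1, f.2⟩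
    refine Helper937.Szd.zero_set (X := X) e ?_ ?_ hCS P hP
    · -- inducing
      let r : (C(X, ℝ) → ℝ) → (Helper937.Szd.Cp X → ℝ) := fun F f => F ⟨f.1, f.2⟩
      have hr : IsInducing r := by
        let E : Helper937.Szd.Cp X ≃ C(X, ℝ) :=
          { toFun := fun f => ⟨f.1, f.2⟩
            invFun := fun f => ⟨f, f.continuous⟩
            left_inv := fun _ => rfl
            right_inv := fun _ => rfl }
        exact (Homeomorph.piCongrLeft (Y := fun _ => ℝ) E).symm.isInducing
      exact hr.comp IsInducing.subtypeVal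
    · rintro ⟨φ, a, rfl⟩
      show Continuous fun f : Helper937.Szd.Cp X => a.sum (fun x r => r * f.1 x)
      refine continuous_finsetSum _ fun x _ => ?_
      exact continuous_const.mul ((continuous_apply x).comp continuous_subtype_val)
  · refine Helper937.Szd.perfect_of_zero ?_
    intro P hP
    exact Helper937.Szd.zero_set (X := X) (E := Cp (Cp X))
      (fun φ => φ.1) IsInducing.subtypeVal (fun φ => φ.2) hCS P hP

end Pool.Agent.Results.MP_f50f0f_gt.StronglyZeroDim
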